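import Pool.Agent.helper51.VR.Spec

set_option autoImplicit false

namespace Pool.Agent.VR

open Pool.Agent.RB NumberField IsDedekindDomain Module
open scoped nonZeroDivisors Real Classical IsMulCommutative

section aux

variable {F H : Type} [Field F] [NumberField F] [Field H] [NumberField H] [Algebra F H] [IsAbelianGalois F H]

theorem ADD_half (a b : MonoidAlgebra ℤ (H ≃ₐ[F] H)) (h : a + a = b + b) : a = b := by
  ext x
  have h1 := congrArg (fun z => MonoidAlgebra.coeff z x) h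
  simp only [MonoidAlgebra.coeff_add, Finsupp.add_apply] at h1
  omega

theorem ADD_toQ_mul (a b : MonoidAlgebra ℤ (H ≃ₐ[F] H)) : toQ (a * b) = toQ a * toQ b :=
  map_mul (MonoidAlgebra.mapRingHom (H ≃ₐ[F] H) (Int.castRingHom ℚ)) a b

theorem ADD_toQ_add (a b : MonoidAlgebra ℤ (H ≃ₐ[F] H)) : toQ (a + b) = toQ a + toQ b :=
  map_add (MonoidAlgebra.mapRingHom (H ≃ₐ[F] H) (Int.castRingHom ℚ)) a b

theorem ADD_toQ_sub (a b : MonoidAlgebra ℤ (H ≃ₐ[F] H)) : toQ (a - b) = toQ a - toQ b :=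
  map_sub (MonoidAlgebra.mapRingHom (H ≃ₐ[F] H) (Int.castRingHom ℚ)) a b

theorem ADD_toQ_one : toQ (1 : MonoidAlgebra ℤ (H ≃ₐ[F] H)) = 1 :=
  map_one (MonoidAlgebra.mapRingHom (H ≃ₐ[F] H) (Int.castRingHom ℚ))

theorem ADD_toQ_zero : toQ (0 : MonoidAlgebra ℤ (H ≃ₐ[F] H)) = 0 :=
  map_zero (MonoidAlgebra.mapRingHom (H ≃ₐ[F] H) (Int.castRingHom ℚ))

theorem ADD_toQ_nat (n : ℕ) : toQ ((n : ℕ) : MonoidAlgebra ℤ (H ≃ₐ[F] H)) = (n : QGr F H) :=
  map_natCast (MonoidAlgebra.mapRingHom (H ≃ₐ[F] H) (Int.castRingHom ℚ)) n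

theorem ADD_toQ_single (c : H ≃ₐ[F] H) : toQ (MonoidAlgebra.single c 1) = sg c := by
  unfold toQ sg
  rw [MonoidAlgebra.mapRingHom_single]
  simp only [map_one]

/-- the ideal of the `z` with `m Θ z ∈ K ℤ[G]` for some odd `m` -/
def ADD_I (Θ : QGr F H) (K : ℕ) : Ideal (MonoidAlgebra ℤ (H ≃ₐ[F] H)) where
  carrier := {z | ∃ (m : ℕ) (y : MonoidAlgebra ℤ (H ≃ₐ[F] H)), Odd m ∧
    (m : QGr F H) * (Θ * toQ z) = (K : QGr F H) * toQ y}
  zero_mem' := ⟨1, 0, odd_one, by rw [ADD_toQ_zero, mul_zero, mul_zero, mul_zero]⟩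
  add_mem' := by
    rintro a b ⟨m, y, hm, h⟩ ⟨m', y', hm', h'⟩
    refine ⟨m * m', (m' : MonoidAlgebra ℤ (H ≃ₐ[F] H)) * y + (m : MonoidAlgebra ℤ (H ≃ₐ[F] H)) * y',
      hm.mul hm', ?_⟩
    rw [ADD_toQ_add, ADD_toQ_add, ADD_toQ_mul, ADD_toQ_mul, ADD_toQ_nat, ADD_toQ_nat]
    push_cast
    calc (m : QGr F H) * m' * (Θ * (toQ a + toQ b))
        = m' * (m * (Θ * toQ a)) + m * (m' * (Θ * toQ b)) := by ring
      _ = _ := by rw [h, h']; ring
  smul_mem' := by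
    rintro c z ⟨m, y, hm, h⟩
    refine ⟨m, c * y, hm, ?_⟩
    rw [smul_eq_mul, ADD_toQ_mul, ADD_toQ_mul]
    calc (m : QGr F H) * (Θ * (toQ c * toQ z)) = toQ c * (m * (Θ * toQ z)) := by ring
      _ = _ := by rw [h]; ring

theorem ADD_mem (Θ : QGr F H) (K : ℕ) (z : MonoidAlgebra ℤ (H ≃ₐ[F] H)) :
    z ∈ ADD_I Θ K ↔ ∃ (m : ℕ) (y : MonoidAlgebra ℤ (H ≃ₐ[F] H)), Odd m ∧
      (m : QGr F H) * (Θ * toQ z) = (K : QGr F H) * toQ y := Iff.rfl

end aux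

theorem ADD (hDTA : DTA_stmt) (hIDN : IDN_stmt) (hPWR : PWR_stmt) (hFCT : FCT_stmt) : ADD_stmt := by
  intro F H _ _ _ _ _ _ _ r D D' hS hT hvw hx Θ hΘ hRub
  obtain ⟨d, x, hd, hxU, hxc, hx0⟩ := hx
  have hc : D.c = D'.c := RData_c_eq D D'
  obtain ⟨-, -, -, -, hF5, hF6, -, -⟩ := hFCT F H r D
  obtain ⟨-, -, -, -, hG5, hG6, hG7, -⟩ := hFCT F H (r + 1) D'
  have hrange : Set.range D.v ⊆ Set.range D'.v := by
    rintro _ ⟨i, rfl⟩
    exact ⟨i.succ, (hvw i).1⟩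
  have hle : UU D ≤ UU D' := by
    intro z hz
    obtain ⟨h1, h2⟩ := (hF5 z).1 hz
    refine (hG5 z).2 ⟨fun P hP => h1 P (by rw [← hT]; exact hP), fun P hP => h2 P fun h => hP (hrange h)⟩
  intro n u hDS φ hφ
  obtain ⟨hn, hu, hord⟩ := hDS
  have hmono : ∀ ψ : Hˣ → MonoidAlgebra ℤ (H ≃ₐ[F] H), IsGH (UU D') ψ → IsGH (UU D) ψ := by
    intro ψ hψ
    exact ⟨fun a ha b hb => hψ.mul a (hle ha) b (hle hb),
      fun σ a ha b hb hab => hψ.equiv σ a (hle ha) b (hle hb) hab⟩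
  -- the dual system of `D`
  have hDS' : DS D n (fun j : Fin r => u j.succ) := by
    refine ⟨hn, fun j => ⟨?_, ?_⟩, fun i j => ?_⟩
    · obtain ⟨h1, h2⟩ := (hG5 (u j.succ)).1 (hu j.succ).1
      refine (hF5 _).2 ⟨fun P hP => h1 P (by rw [hT]; exact hP), fun P hP => ?_⟩
      by_cases hP' : P.under (𝓞 F) ∈ Set.range D'.v
      · obtain ⟨i, hi⟩ := hP'
        rcases Fin.eq_zero_or_eq_succ i with rfl | ⟨i', rfl⟩
        · have h3 : ordZ F (D'.w 0) (u j.succ : H) = 0 := by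
            rw [hord 0 j.succ, if_neg (Fin.succ_ne_zero j).symm]
          exact (hG6 (u j.succ) 0).1 h3 P hi.symm
        · exact absurd ⟨i', by rw [← (hvw i').1, hi]⟩ hP
      · exact h2 P hP'
    · rw [hc]
      exact (hu j.succ).2
    · rw [← (hvw i).2, hord i.succ j.succ, hc]
      by_cases hij : i = j
      · subst hij
        rw [if_pos rfl, if_pos rfl]
      · rw [if_neg hij, if_neg (fun h => hij (Fin.succ_injective _ h))]
  have hDS0 : DS D' n u := ⟨hn, hu, hord⟩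
  have hidn := hIDN F H (r + 1) D' n u hDS0
  have hordGH : ∀ w : HOS H, IsGH (UU D') (fun x => ordZ F w (x : H)) :=
    (hPWR F H (D'.T : Set (HOS F)) (Set.range D'.v)).2.2.2
  have hb : ∀ j : Fin (r + 1), ∃ z : MonoidAlgebra ℤ (H ≃ₐ[F] H),
      ordZ F (D'.w j) (x : H) = (1 - MonoidAlgebra.single D'.c 1) * z := by
    intro j
    exact hG7 _ (hidn _ (hordGH (D'.w j)) x hxU hxc).1
  choose b hb using hb
  have hy : ∀ i : Fin (r + 1), ∃ z : MonoidAlgebra ℤ (H ≃ₐ[F] H),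
      φ i x = (1 - MonoidAlgebra.single D'.c 1) * z := by
    intro i
    exact hG7 _ (hidn _ (hφ i) x hxU hxc).1
  choose y hy using hy
  have hF1 : ∀ i j, MonoidAlgebra.single D'.c 1 * φ i (u j) = - φ i (u j) := by
    intro i j
    exact (hidn _ (hφ i) (u j) (hu j).1 (hu j).2).1
  -- the relation
  have hrel : ∀ i, (d : MonoidAlgebra ℤ (H ≃ₐ[F] H)) * φ i (u 0) =
      (n : MonoidAlgebra ℤ (H ≃ₐ[F] H)) * φ i x - ∑ j : Fin r, b j.succ * φ i (u j.succ) := by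
    intro i
    have h1 := (hidn _ (hφ i) x hxU hxc).2
    rw [Fin.sum_univ_succ, hx0] at h1
    have h2 : ∀ j : Fin r, ordZ F (D'.w j.succ) (x : H) * φ i (u j.succ) =
        b j.succ * φ i (u j.succ) + b j.succ * φ i (u j.succ) := by
      intro j
      rw [hb j.succ]
      calc (1 - MonoidAlgebra.single D'.c 1) * b j.succ * φ i (u j.succ)
          = b j.succ * (φ i (u j.succ) - MonoidAlgebra.single D'.c 1 * φ i (u j.succ)) := by ring
        _ = _ := by rw [hF1]; ring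
    rw [Finset.sum_congr rfl fun j _ => h2 j, Finset.sum_add_distrib, nsmul_eq_mul, nsmul_eq_mul] at h1
    have h3 : (d : MonoidAlgebra ℤ (H ≃ₐ[F] H)) * (1 - MonoidAlgebra.single D'.c 1) * φ i (u 0) =
        (d : MonoidAlgebra ℤ (H ≃ₐ[F] H)) * φ i (u 0) + (d : MonoidAlgebra ℤ (H ≃ₐ[F] H)) * φ i (u 0) := by
      calc (d : MonoidAlgebra ℤ (H ≃ₐ[F] H)) * (1 - MonoidAlgebra.single D'.c 1) * φ i (u 0)
          = (d : MonoidAlgebra ℤ (H ≃ₐ[F] H)) * (φ i (u 0) - MonoidAlgebra.single D'.c 1 * φ i (u 0)) := by ring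
        _ = _ := by rw [hF1]; ring
    rw [h3] at h1
    have h4 : (n : MonoidAlgebra ℤ (H ≃ₐ[F] H)) * φ i x + (n : MonoidAlgebra ℤ (H ≃ₐ[F] H)) * φ i x =
        ((d : MonoidAlgebra ℤ (H ≃ₐ[F] H)) * φ i (u 0) + ∑ j : Fin r, b j.succ * φ i (u j.succ)) +
        ((d : MonoidAlgebra ℤ (H ≃ₐ[F] H)) * φ i (u 0) + ∑ j : Fin r, b j.succ * φ i (u j.succ)) := by
      calc (n : MonoidAlgebra ℤ (H ≃ₐ[F] H)) * φ i x + (n : MonoidAlgebra ℤ (H ≃ₐ[F] H)) * φ i x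
          = ((2 * n : ℕ) : MonoidAlgebra ℤ (H ≃ₐ[F] H)) * φ i x := by push_cast; ring
        _ = _ := by rw [h1]; ring
    rw [ADD_half _ _ h4]
    ring
  -- the ideal
  have hcrit := hDTA (MonoidAlgebra ℤ (H ≃ₐ[F] H)) r (Matrix.of fun i j => φ i (u j))
    (d : MonoidAlgebra ℤ (H ≃ₐ[F] H)) (n : MonoidAlgebra ℤ (H ≃ₐ[F] H)) (fun i => φ i x)
    (fun j => b j.succ) hrel (ADD_I Θ ((2 * n) ^ (r + 1))) (by
      intro i
      obtain ⟨m, z, hm, hz⟩ := hRub n (fun j : Fin r => u j.succ) hDS'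
        (fun k => φ (i.succAbove k)) (fun k => hmono _ (hφ _))
      rw [ADD_mem]
      refine ⟨m, y i * z, hm, ?_⟩
      have h1 : (Matrix.of fun i j => φ i (u j)).submatrix i.succAbove Fin.succ =
          (fun (k : Fin r) (j : Fin r) => φ (i.succAbove k) (u j.succ)) := rfl
      rw [h1]
      set Δ : MonoidAlgebra ℤ (H ≃ₐ[F] H) :=
        Matrix.det (fun (k : Fin r) (j : Fin r) => φ (i.succAbove k) (u j.succ)) with hΔ
      have h2 : Θ * (1 - sg D'.c) = Θ + Θ := by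
        rw [← hc, mul_sub, mul_one, mul_comm Θ (sg D.c), hΘ]
        ring
      rw [hy i, ADD_toQ_mul, ADD_toQ_mul, ADD_toQ_mul, ADD_toQ_sub, ADD_toQ_one, ADD_toQ_single,
        ADD_toQ_nat, ADD_toQ_mul]
      calc (m : QGr F H) * (Θ * ((n : QGr F H) * ((1 - sg D'.c) * toQ (y i)) * toQ Δ))
          = m * ((n : QGr F H) * toQ (y i) * (Θ * (1 - sg D'.c)) * toQ Δ) := by ring
        _ = 2 * n * toQ (y i) * (m * (Θ * toQ Δ)) := by rw [h2]; ring
        _ = _ := by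
          rw [hz]
          push_cast
          ring)
  rw [ADD_mem] at hcrit
  obtain ⟨m, z, hm, hz⟩ := hcrit
  refine ⟨m * d, z, hm.mul hd, ?_⟩
  have h1 : Matrix.det (Matrix.of fun i j => φ i (u j)) = Matrix.det (fun i j => φ i (u j)) := rfl
  rw [h1, ADD_toQ_mul, ADD_toQ_nat] at hz
  rw [← hz]
  push_cast
  ring

end Pool.Agent.VR
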